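import Mathlib

/-!
# Plane orbifold pairs supported on lines in general position, and their orbifold rational curves

`P^1 = ℂ ∪ {∞}` is `Option ℂ` (`none` is `∞`); `P^2` is the set of non-zero vectors of
`Fin 3 → ℂ` up to scaling.
-/

set_option autoImplicit false

namespace Pool.Agent.H436R3

open Polynomial

/-- A morphism `γ : P^1 → P^2` over `ℂ`, of degree `e`: the point `t` goes to
`[f 0 (t) : f 1 (t) : f 2 (t)]`, where the `f i` are polynomials of degree at most `e` which have
no common zero in `ℂ` and do not all vanish at `∞` as forms of degree `e`.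
Every morphism `P^1 → P^2` has this form, and `γ^* O(1) = O(e)`. -/
structure RatCurve where
  e : ℕ
  f : Fin 3 → ℂ[X]
  natDegree_le : ∀ i, (f i).natDegree ≤ e
  infty : ∃ i, (f i).coeff e ≠ 0
  finite : ∀ a : ℂ, ∃ i, (f i).eval a ≠ 0

namespace RatCurve

/-- Homogeneous coordinates of the image of a point of `P^1`. -/
noncomputable def val (γ : RatCurve) : Option ℂ → Fin 3 → ℂ
  | some a => fun i => (γ.f i).eval a
  | none => fun i => (γ.f i).coeff γ.e

/-- The pull-back of the linear form `ℓ 0 x_0 + ℓ 1 x_1 + ℓ 2 x_2`, in the affine coordinate. -/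
noncomputable def pull (γ : RatCurve) (ℓ : Fin 3 → ℂ) : ℂ[X] := ∑ i, C (ℓ i) * γ.f i

/-- The multiplicity `t_a` of the point `a` in the divisor `γ^* L = ∑ t_a a` of degree `e`,
where `L` is the line with equation `ℓ` (and `γ^* ℓ ≠ 0`). -/
noncomputable def ord (γ : RatCurve) (ℓ : Fin 3 → ℂ) : Option ℂ → ℕ
  | some a => (γ.pull ℓ).rootMultiplicity a
  | none => γ.e - (γ.pull ℓ).natDegree

/-- The curve passes through the point `[x]` of `P^2`. -/
def Through (γ : RatCurve) (x : Fin 3 → ℂ) : Prop := ∃ a, ∃ r : ℂ, r ≠ 0 ∧ γ.val a = r • x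

end RatCurve

/-- A smooth orbifold pair `(P^2, D)`, `D = ∑ c j • L j`, where the `L j` are the lines with
equations `ℓ j`, in general position (any three or fewer of the linear forms are linearly
independent: the lines are distinct and no three are concurrent, so that the support of `D` has
simple normal crossings), with rational coefficients `0 < c j ≤ 1`. -/
structure PlaneOrbifold (d : ℕ) where
  ℓ : Fin d → Fin 3 → ℂ
  general : ∀ s : Finset (Fin d), s.card ≤ 3 → LinearIndependent ℂ (fun j : s => ℓ j)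
  c : Fin d → ℚ
  c_pos : ∀ j, 0 < c j
  c_le_one : ∀ j, c j ≤ 1

/-- The multiplicity `m = 1 / (1 - c)` belonging to the coefficient `c = 1 - 1 / m` (so `m = ∞`
for `c = 1`, and `m = 1` for `c = 0`). -/
noncomputable def mult (c : ℚ) : ENNReal := (ENNReal.ofReal (1 - (c : ℝ)))⁻¹

/-- `P x` holds for a very general point `[x]` of `P^2`, that is, for every point outside a
countable union of proper Zariski-closed subsets (each contained in the zero locus of a non-zero
homogeneous polynomial). -/
def VeryGeneral (P : (Fin 3 → ℂ) → Prop) : Prop :=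
  ∃ Z : ℕ → MvPolynomial (Fin 3) ℂ, (∀ n, Z n ≠ 0 ∧ ∃ k, (Z n).IsHomogeneous k) ∧
    ∀ x : Fin 3 → ℂ, x ≠ 0 → (∀ n, MvPolynomial.eval x (Z n) ≠ 0) → P x

namespace PlaneOrbifold

variable {d : ℕ}

/-- The degree of `K_{P^2} + D`, which is `-3 + ∑ c j`. The class `K_{P^2} + D` is
pseudo-effective exactly when this is `≥ 0`. -/
def degKD (P : PlaneOrbifold d) : ℚ := -3 + ∑ j, P.c j

/-- `γ : (P^1, δ) → (P^2, D)` is an orbifold morphism, where `δ = ∑ δ a • a`, `0 ≤ δ a ≤ 1`, is
an orbifold divisor on `P^1`: `γ` is not constant, its image is not inside a line `L j`, and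
`t_{a,j} * m_a ≥ m_j` whenever `γ a ∈ L j`, where `m_a` is the multiplicity of `a` in `δ`. -/
structure IsOrbifoldMorphism (P : PlaneOrbifold d) (γ : RatCurve) (δ : Option ℂ →₀ ℚ) : Prop where
  nonconst : 1 ≤ γ.e
  coeff_nonneg : ∀ a, 0 ≤ δ a
  coeff_le_one : ∀ a, δ a ≤ 1
  not_subset : ∀ j, γ.pull (P.ℓ j) ≠ 0
  le_mult : ∀ a j, ∑ i, P.ℓ j i * γ.val a i = 0 →
    mult (P.c j) ≤ (γ.ord (P.ℓ j) a : ENNReal) * mult (δ a)

/-- An orbifold rational curve: an orbifold morphism from `(P^1, δ)` with
`deg (K_{P^1} + δ) = -2 + ∑ δ a < 0`. -/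
def IsOrbifoldRationalCurve (P : PlaneOrbifold d) (γ : RatCurve) (δ : Option ℂ →₀ ℚ) : Prop :=
  P.IsOrbifoldMorphism γ δ ∧ -2 + δ.sum (fun _ r => r) < 0

/-- Some orbifold rational curve of `(P^2, D)` passes through the point `[x]`. -/
def CurveThrough (P : PlaneOrbifold d) (x : Fin 3 → ℂ) : Prop :=
  ∃ (γ : RatCurve) (δ : Option ℂ →₀ ℚ), P.IsOrbifoldRationalCurve γ δ ∧ γ.Through x

/-- `(P^2, D)` is uniruled: an orbifold rational curve passes through a general point. -/
def IsUniruled (P : PlaneOrbifold d) : Prop := VeryGeneral P.CurveThrough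

end PlaneOrbifold

end Pool.Agent.H436R3
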