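import Mathlib

/-!
# A Wronskian-type determinant attached to a polynomial curve and a derivation of the constants

For a curve `(g 0, g 1, g 2)` of polynomials over a differential field we study
`det (g, g', δ g)`, where `g'` is the derivative and `δ g` the coefficientwise derivation.
-/

set_option autoImplicit false

namespace Pool.Agent.H436R3

open Polynomial Differential

variable {F : Type} [Field F] [Differential F]

/-- `det (g, g', δ g)`. -/
noncomputable def wr (g : Fin 3 → F[X]) : F[X] :=
  (Matrix.of fun i => ![g i, derivative (g i), mapCoeffs (g i)]).det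

theorem wr_eq (g : Fin 3 → F[X]) : wr g =
    g 0 * (derivative (g 1) * mapCoeffs (g 2) - mapCoeffs (g 1) * derivative (g 2))
    - derivative (g 0) * (g 1 * mapCoeffs (g 2) - mapCoeffs (g 1) * g 2)
    + mapCoeffs (g 0) * (g 1 * derivative (g 2) - derivative (g 1) * g 2) := by
  rw [wr, Matrix.det_fin_three]
  simp
  ring

/-- The derivation `δ + δ(a) d/dX`, which commutes with evaluation at `a`. -/
noncomputable def da (a : F) : Derivation ℤ F[X] F[X] := implicitDeriv (C a′)

theorem da_apply (a : F) (g : F[X]) : da a g = mapCoeffs g + C a′ * derivative g := by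
  simp [da, implicitDeriv]

theorem da_X_sub_C (a : F) : da a (X - C a) = 0 := by
  simp [da]

theorem da_pow (a : F) (n : ℕ) (u : F[X]) :
    da a ((X - C a) ^ n * u) = (X - C a) ^ n * da a u := by
  rw [Derivation.leibniz, Derivation.leibniz_pow, da_X_sub_C]
  simp

theorem dvd_da {a : F} {n : ℕ} {g : F[X]} (h : (X - C a) ^ n ∣ g) :
    (X - C a) ^ n ∣ da a g := by
  obtain ⟨u, rfl⟩ := h
  rw [da_pow]
  exact dvd_mul_right _ _

omit [Differential F] in
theorem dvd_derivative' {a : F} {n : ℕ} {g : F[X]} (h : (X - C a) ^ n ∣ g) :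
    (X - C a) ^ (n - 1) ∣ derivative g := by
  obtain ⟨u, rfl⟩ := h
  rw [derivative_mul, derivative_X_sub_C_pow]
  refine dvd_add ?_ ?_
  · exact ((dvd_mul_left _ _).mul_right _)
  · exact (pow_dvd_pow _ (Nat.sub_le _ _)).mul_right _

theorem wr_da (a : F) (g : Fin 3 → F[X]) : wr g =
    g 0 * (derivative (g 1) * da a (g 2) - da a (g 1) * derivative (g 2))
    - derivative (g 0) * (g 1 * da a (g 2) - da a (g 1) * g 2)
    + da a (g 0) * (g 1 * derivative (g 2) - derivative (g 1) * g 2) := by
  rw [wr_eq]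
  simp only [da_apply]
  ring

/-- Divisibility of the determinant at a point where two coordinates vanish. -/
theorem pow_dvd_wr {a : F} {p q : ℕ} {g : Fin 3 → F[X]} (h0 : (X - C a) ^ p ∣ g 0)
    (h1 : (X - C a) ^ q ∣ g 1) : (X - C a) ^ (p + q - 1) ∣ wr g := by
  rw [wr_da a]
  have k0 := dvd_derivative' h0
  have k1 := dvd_derivative' h1
  have l0 := dvd_da h0
  have l1 := dvd_da h1
  have key : ∀ {m n : ℕ} {u v : F[X]} (_ : (X - C a) ^ m ∣ u) (_ : (X - C a) ^ n ∣ v)
      (_ : p + q - 1 ≤ m + n), (X - C a) ^ (p + q - 1) ∣ u * v := by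
    intro m n u v hu hv hmn
    exact (pow_dvd_pow _ hmn).trans ((pow_add (X - C a) m n) ▸ mul_dvd_mul hu hv)
  refine dvd_add (dvd_sub ?_ ?_) ?_
  · rw [mul_sub, ← mul_assoc, ← mul_assoc]
    exact dvd_sub ((key h0 k1 (by omega)).mul_right _) ((key h0 l1 (by omega)).mul_right _)
  · rw [mul_sub, ← mul_assoc, ← mul_assoc]
    exact dvd_sub ((key k0 h1 (by omega)).mul_right _) ((key k0 l1 (by omega)).mul_right _)
  · rw [mul_sub, ← mul_assoc, ← mul_assoc]
    exact dvd_sub ((key l0 h1 (by omega)).mul_right _) ((key l0 k1 (by omega)).mul_right _)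

end Pool.Agent.H436R3
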