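import Mathlib
import Pool.Agent.H436R3.WronA

/-!
# Degree bounds and non-vanishing for the Wronskian-type determinant
-/

set_option autoImplicit false

namespace Pool.Agent.H436R3

open Polynomial Differential

variable {F : Type} [Field F] [Differential F]

omit [Differential F] in
theorem nd_sub {p q : F[X]} {n : ℕ} (hp : p.natDegree ≤ n) (hq : q.natDegree ≤ n) :
    (p - q).natDegree ≤ n := (natDegree_sub_le p q).trans (max_le hp hq)

omit [Differential F] in
theorem nd_add {p q : F[X]} {n : ℕ} (hp : p.natDegree ≤ n) (hq : q.natDegree ≤ n) :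
    (p + q).natDegree ≤ n := (natDegree_add_le p q).trans (max_le hp hq)

theorem natDegree_mapCoeffs_le (g : F[X]) : (mapCoeffs g).natDegree ≤ g.natDegree := by
  rw [natDegree_le_iff_coeff_eq_zero]
  intro N hN
  rw [coeff_mapCoeffs, coeff_eq_zero_of_natDegree_lt hN]
  simp

omit [Differential F] in
theorem natDegree_X_mul_derivative_le (g : F[X]) : (X * derivative g).natDegree ≤ g.natDegree := by
  rw [natDegree_le_iff_coeff_eq_zero]
  intro N hN
  rcases N with _ | N
  · simp
  · rw [coeff_X_mul, coeff_derivative, coeff_eq_zero_of_natDegree_lt hN, zero_mul]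

/-- The degree of the determinant when two coordinates have smaller degree. -/
theorem natDegree_wr_le {g : Fin 3 → F[X]} {d : Fin 3 → ℕ} (h : ∀ i, (g i).natDegree ≤ d i)
    (hw : wr g ≠ 0) : (wr g).natDegree + 1 ≤ d 0 + d 1 + d 2 := by
  have h1 : (X * wr g).natDegree = (wr g).natDegree + 1 := by
    rw [natDegree_mul X_ne_zero hw, natDegree_X, add_comm]
  rw [← h1]
  have h2 : X * wr g =
    g 0 * ((X * derivative (g 1)) * mapCoeffs (g 2) - mapCoeffs (g 1) * (X * derivative (g 2)))
    - (X * derivative (g 0)) * (g 1 * mapCoeffs (g 2) - mapCoeffs (g 1) * g 2)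
    + mapCoeffs (g 0) * (g 1 * (X * derivative (g 2)) - (X * derivative (g 1)) * g 2) := by
    rw [wr_eq]
    ring
  rw [h2]
  have hX : ∀ i, (X * derivative (g i)).natDegree ≤ d i := fun i =>
    (natDegree_X_mul_derivative_le _).trans (h i)
  have hM : ∀ i, (mapCoeffs (g i)).natDegree ≤ d i := fun i =>
    (natDegree_mapCoeffs_le _).trans (h i)
  have key : ∀ {u v w : F[X]} (_ : u.natDegree ≤ d 0) (_ : v.natDegree ≤ d 1)
      (_ : w.natDegree ≤ d 2), (u * (v * w)).natDegree ≤ d 0 + d 1 + d 2 := by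
    intro u v w hu hv hw
    calc (u * (v * w)).natDegree ≤ u.natDegree + (v * w).natDegree := natDegree_mul_le
      _ ≤ u.natDegree + (v.natDegree + w.natDegree) := by gcongr; exact natDegree_mul_le
      _ ≤ _ := by omega
  refine nd_add (nd_sub ?_ ?_) ?_
  · rw [mul_sub]
    exact nd_sub (key (h 0) (hX 1) (hM 2)) (key (h 0) (hM 1) (hX 2))
  · rw [mul_sub]
    exact nd_sub (key (hX 0) (h 1) (hM 2)) (key (hX 0) (hM 1) (h 2))
  · rw [mul_sub]
    exact nd_sub (key (hM 0) (h 1) (hX 2)) (key (hM 0) (hX 1) (h 2))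

/-- The degree of the determinant in general. -/
theorem natDegree_wr_le' {g : Fin 3 → F[X]} {e : ℕ} (he : 1 ≤ e) (h : ∀ i, (g i).natDegree ≤ e)
    (hw : wr g ≠ 0) : (wr g).natDegree + 2 ≤ 3 * e := by
  have h1 : (X * wr g).natDegree = (wr g).natDegree + 1 := by
    rw [natDegree_mul X_ne_zero hw, natDegree_X, add_comm]
  let Y : Fin 3 → F[X] := fun i => X * derivative (g i) - C (e : F) * g i
  have hY : ∀ i, (Y i).natDegree ≤ e - 1 := by
    intro i
    rw [natDegree_le_iff_coeff_eq_zero]
    intro N hN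
    rcases N with _ | N
    · omega
    · simp only [Y]
      rw [coeff_sub, coeff_X_mul, coeff_derivative, coeff_C_mul]
      rcases (by omega : N + 1 = e ∨ e < N + 1) with h2 | h2
      · have : (e : F) = N + 1 := by rw [← h2]; push_cast; ring
        rw [this]
        ring
      · rw [coeff_eq_zero_of_natDegree_lt ((h i).trans_lt h2)]
        ring
  have h2 : X * wr g =
    g 0 * ((Y 1) * mapCoeffs (g 2) - mapCoeffs (g 1) * (Y 2))
    - (Y 0) * (g 1 * mapCoeffs (g 2) - mapCoeffs (g 1) * g 2)
    + mapCoeffs (g 0) * (g 1 * (Y 2) - (Y 1) * g 2) := by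
    rw [wr_eq]
    simp only [Y]
    ring
  have hM : ∀ i, (mapCoeffs (g i)).natDegree ≤ e := fun i =>
    (natDegree_mapCoeffs_le _).trans (h i)
  have h3 : (X * wr g).natDegree ≤ 3 * e - 1 := by
    rw [h2]
    have key : ∀ {u v w : F[X]} (_ : u.natDegree + v.natDegree + w.natDegree ≤ 3 * e - 1),
        (u * (v * w)).natDegree ≤ 3 * e - 1 := by
      intro u v w hu
      calc (u * (v * w)).natDegree ≤ u.natDegree + (v * w).natDegree := natDegree_mul_le
        _ ≤ u.natDegree + (v.natDegree + w.natDegree) := by gcongr; exact natDegree_mul_le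
        _ ≤ _ := by omega
    have a0 := h 0
    have a1 := h 1
    have a2 := h 2
    have b0 := hY 0
    have b1 := hY 1
    have b2 := hY 2
    have c0 := hM 0
    have c1 := hM 1
    have c2 := hM 2
    refine nd_add (nd_sub ?_ ?_) ?_
    · rw [mul_sub]
      exact nd_sub (key (by omega)) (key (by omega))
    · rw [mul_sub]
      exact nd_sub (key (by omega)) (key (by omega))
    · rw [mul_sub]
      exact nd_sub (key (by omega)) (key (by omega))
  omega

/-- Pull-back of a linear form. -/
noncomputable def pl (f : Fin 3 → F[X]) (ℓ : Fin 3 → F) : F[X] := ∑ i, C (ℓ i) * f i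

theorem mapCoeffs_pl (f : Fin 3 → F[X]) (ℓ : Fin 3 → F) (h : ∀ i, (ℓ i)′ = 0) :
    mapCoeffs (pl f ℓ) = ∑ i, C (ℓ i) * mapCoeffs (f i) := by
  simp only [pl, map_sum, Derivation.leibniz, mapCoeffs_C, h, map_zero, smul_eq_mul, mul_zero,
    add_zero]

omit [Differential F] in
theorem derivative_pl (f : Fin 3 → F[X]) (ℓ : Fin 3 → F) :
    derivative (pl f ℓ) = ∑ i, C (ℓ i) * derivative (f i) := by
  simp [pl]

/-- Change of coordinates. -/
theorem wr_pl (f : Fin 3 → F[X]) (L : Fin 3 → Fin 3 → F) (h : ∀ i k, (L i k)′ = 0) :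
    wr (fun i => pl f (L i)) = C (Matrix.of L).det * wr f := by
  have h1 : (Matrix.of fun i => ![pl f (L i), derivative (pl f (L i)), mapCoeffs (pl f (L i))])
      = (Matrix.of L).map C * (Matrix.of fun i => ![f i, derivative (f i), mapCoeffs (f i)]) := by
    refine Matrix.ext fun i j => ?_
    rw [Matrix.mul_apply]
    have e1 := mapCoeffs_pl f (L i) (h i)
    have e2 := derivative_pl f (L i)
    fin_cases j
    · simp [pl]
    · simpa using e2
    · simpa using e1
  rw [wr, h1, Matrix.det_mul, wr]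
  congr 1
  rw [RingHom.map_det]
  rfl

omit [Differential F] in
theorem natDegree_pl_le (f : Fin 3 → F[X]) (ℓ : Fin 3 → F) {e : ℕ}
    (h : ∀ i, (f i).natDegree ≤ e) : (pl f ℓ).natDegree ≤ e := by
  refine natDegree_sum_le_of_forall_le _ _ fun i _ => ?_
  exact (natDegree_C_mul_le _ _).trans (h i)

end Pool.Agent.H436R3
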