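import Mathlib
import Pool.Agent.H436R3.WronB

/-!
# Non-vanishing of the Wronskian-type determinant
-/

set_option autoImplicit false

namespace Pool.Agent.H436R3

open Polynomial Differential

section plain

variable {F : Type} [Field F] [CharZero F]

theorem natDegree_eq_of_wronskian {p q : F[X]} (hp : p ≠ 0) (hq : q ≠ 0)
    (h : p * derivative q = q * derivative p) : p.natDegree = q.natDegree := by
  have h1 : p * (X * derivative q) = q * (X * derivative p) := by
    linear_combination X * h
  have h2 := congrArg (fun r => coeff r (p.natDegree + q.natDegree)) h1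
  have e1 : ∀ r : F[X], coeff (X * derivative r) r.natDegree = r.natDegree * r.leadingCoeff := by
    intro r
    rcases Nat.eq_zero_or_pos r.natDegree with h0 | h0
    · rw [h0]
      simp
    · obtain ⟨n, hn⟩ := Nat.exists_eq_succ_of_ne_zero h0.ne'
      have : coeff (X * derivative r) (n + 1) = coeff r (n + 1) * (n + 1) := by
        rw [coeff_X_mul, coeff_derivative]
      rw [leadingCoeff, hn, Nat.succ_eq_add_one, this]
      push_cast
      ring
  rw [coeff_mul_add_eq_of_natDegree_le le_rfl (natDegree_X_mul_derivative_le q), add_comm,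
    coeff_mul_add_eq_of_natDegree_le le_rfl (natDegree_X_mul_derivative_le p), e1, e1] at h2
  have h3 : p.leadingCoeff * q.leadingCoeff ≠ 0 :=
    mul_ne_zero (leadingCoeff_ne_zero.2 hp) (leadingCoeff_ne_zero.2 hq)
  have h4 : (p.leadingCoeff * q.leadingCoeff) * ((q.natDegree : F) - p.natDegree) = 0 := by
    have h5 : coeff p p.natDegree = p.leadingCoeff := rfl
    have h6 : coeff q q.natDegree = q.leadingCoeff := rfl
    rw [h5, h6] at h2
    linear_combination h2
  rcases mul_eq_zero.1 h4 with h5 | h5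
  · exact absurd h5 h3
  · exact_mod_cast (sub_eq_zero.1 h5).symm

/-- Two polynomials with vanishing Wronskian are proportional. -/
theorem proportional_of_wronskian {p q : F[X]} (hp : p ≠ 0)
    (h : p * derivative q = q * derivative p) : ∃ k : F, q = C k * p := by
  by_cases hq : q = 0
  · exact ⟨0, by simp [hq]⟩
  have h1 := natDegree_eq_of_wronskian hp hq h
  refine ⟨q.leadingCoeff / p.leadingCoeff, ?_⟩
  by_contra hne
  let r : F[X] := q - C (q.leadingCoeff / p.leadingCoeff) * p
  have hr : r ≠ 0 := fun h0 => hne (sub_eq_zero.1 h0)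
  have h2 : p * derivative r = r * derivative p := by
    simp only [r, derivative_sub, derivative_C_mul]
    linear_combination h
  have h3 := natDegree_eq_of_wronskian hp hr h2
  have hlp : p.leadingCoeff ≠ 0 := leadingCoeff_ne_zero.2 hp
  have h4 : coeff r r.natDegree = 0 := by
    rw [← h3]
    simp only [r, coeff_sub, coeff_C_mul]
    have h5 : coeff p p.natDegree = p.leadingCoeff := rfl
    have h6 : coeff q p.natDegree = q.leadingCoeff := by rw [h1]; rfl
    rw [h5, h6]
    field_simp
    ring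
  exact hr (leadingCoeff_eq_zero.1 h4)

/-- A curve without base points of degree `e ≥ 1` has a non-zero first order Wronskian. -/
theorem exists_wronskian_ne [IsAlgClosed F] {f : Fin 3 → F[X]} {e : ℕ} (he : 1 ≤ e)
    (hinf : ∃ i, (f i).coeff e ≠ 0)
    (hfin : ∀ a : F, ∃ i, (f i).eval a ≠ 0) (h0 : f 0 ≠ 0) :
    f 0 * derivative (f 1) - f 1 * derivative (f 0) ≠ 0 ∨
      f 0 * derivative (f 2) - f 2 * derivative (f 0) ≠ 0 := by
  by_contra hcon
  push Not at hcon
  obtain ⟨h1, h2⟩ := hcon
  obtain ⟨k1, hk1⟩ := proportional_of_wronskian h0 (sub_eq_zero.1 h1)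
  obtain ⟨k2, hk2⟩ := proportional_of_wronskian h0 (sub_eq_zero.1 h2)
  have hd : (f 0).natDegree = 0 := by
    by_contra hd
    obtain ⟨a, ha⟩ := IsAlgClosed.exists_root (f 0) (by
      intro h
      exact hd (natDegree_eq_of_degree_eq_some h))
    obtain ⟨i, hi⟩ := hfin a
    apply hi
    have ha' : eval a (f 0) = 0 := ha
    fin_cases i
    · exact ha'
    · simp [hk1, ha']
    · simp [hk2, ha']
  obtain ⟨i, hi⟩ := hinf
  apply hi
  have h3 : (f 0).coeff e = 0 := coeff_eq_zero_of_natDegree_lt (by omega)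
  fin_cases i
  · exact h3
  · simp [hk1, h3]
  · simp [hk2, h3]

end plain

section diff

variable {F : Type} [Field F] [Differential F]

theorem f0_mul_wr (f : Fin 3 → F[X]) : f 0 * wr f =
    (f 0 * derivative (f 1) - f 1 * derivative (f 0)) *
        (f 0 * mapCoeffs (f 2) - f 2 * mapCoeffs (f 0)) -
      (f 0 * derivative (f 2) - f 2 * derivative (f 0)) *
        (f 0 * mapCoeffs (f 1) - f 1 * mapCoeffs (f 0)) := by
  rw [wr_eq]
  ring

theorem f0_mul_wr_da (f : Fin 3 → F[X]) (a : F) : f 0 * wr f =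
    (f 0 * derivative (f 1) - f 1 * derivative (f 0)) *
        (f 0 * da a (f 2) - f 2 * da a (f 0)) -
      (f 0 * derivative (f 2) - f 2 * derivative (f 0)) *
        (f 0 * da a (f 1) - f 1 * da a (f 0)) := by
  rw [f0_mul_wr]
  simp only [da_apply]
  ring

theorem eval_da (a : F) (g : F[X]) : eval a (da a g) = (eval a g)′ := by
  induction g using Polynomial.induction_on' with
  | add p q hp hq => simp [hp, hq]
  | monomial n b =>
    rw [da_apply, mapCoeffs_monomial]
    simp only [eval_add, eval_monomial, eval_mul, eval_C, derivative_monomial]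
    rw [Derivation.leibniz, Derivation.leibniz_pow]
    simp only [smul_eq_mul, nsmul_eq_mul]
    ring

/-- Non-vanishing, finite point. -/
theorem wr_ne_zero_fin {f : Fin 3 → F[X]} {a lam x1 x2 : F} (hlam : lam ≠ 0)
    (e0 : (f 0).eval a = lam) (e1 : (f 1).eval a = lam * x1) (e2 : (f 2).eval a = lam * x2)
    {n : ℕ} {P Q : F[X]}
    (hP : f 0 * derivative (f 1) - f 1 * derivative (f 0) = (X - C a) ^ n * P)
    (hQ : f 0 * derivative (f 2) - f 2 * derivative (f 0) = (X - C a) ^ n * Q)
    (hne : P.eval a * x2′ - Q.eval a * x1′ ≠ 0) : wr f ≠ 0 := by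
  intro h
  have h1 := f0_mul_wr_da f a
  rw [h, hP, hQ] at h1
  have h2 : (X - C a) ^ n * (P * (f 0 * da a (f 2) - f 2 * da a (f 0)) -
      Q * (f 0 * da a (f 1) - f 1 * da a (f 0))) = 0 := by
    linear_combination -h1
  have h3 := (mul_eq_zero.1 h2).resolve_left (pow_ne_zero _ (X_sub_C_ne_zero a))
  have h4 := congrArg (eval a) h3
  simp only [eval_sub, eval_mul, eval_da, e0, e1, e2, eval_zero] at h4
  have h5 : ∀ x : F, lam * (lam * x)′ - lam * x * lam′ = lam ^ 2 * x′ := by
    intro x
    rw [Derivation.leibniz]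
    simp only [smul_eq_mul]
    ring
  rw [h5, h5] at h4
  have h6 : lam ^ 2 * (P.eval a * x2′ - Q.eval a * x1′) = 0 := by linear_combination h4
  rcases mul_eq_zero.1 h6 with h7 | h7
  · exact hlam (pow_eq_zero_iff (by norm_num) |>.1 h7)
  · exact hne h7

/-- Non-vanishing, point at infinity. -/
theorem wr_ne_zero_inf {f : Fin 3 → F[X]} {e : ℕ} {lam x1 x2 : F} (hlam : lam ≠ 0)
    (hd : ∀ i, (f i).natDegree ≤ e)
    (e0 : (f 0).coeff e = lam) (e1 : (f 1).coeff e = lam * x1) (e2 : (f 2).coeff e = lam * x2)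
    {n : ℕ}
    (hP : (f 0 * derivative (f 1) - f 1 * derivative (f 0)).natDegree ≤ n)
    (hQ : (f 0 * derivative (f 2) - f 2 * derivative (f 0)).natDegree ≤ n)
    (hne : (f 0 * derivative (f 1) - f 1 * derivative (f 0)).coeff n * x2′
      - (f 0 * derivative (f 2) - f 2 * derivative (f 0)).coeff n * x1′ ≠ 0) : wr f ≠ 0 := by
  intro h
  have h1 := f0_mul_wr f
  rw [h, mul_zero] at h1
  have hM : ∀ i, (mapCoeffs (f i)).natDegree ≤ e := fun i =>
    (natDegree_mapCoeffs_le _).trans (hd i)
  have hR : ∀ i, (f 0 * mapCoeffs (f i) - f i * mapCoeffs (f 0)).natDegree ≤ e + e := fun i =>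
    nd_sub (natDegree_mul_le_of_le (hd 0) (hM i)) (natDegree_mul_le_of_le (hd i) (hM 0))
  have h2 := congrArg (fun r => coeff r (n + (e + e))) h1
  simp only [coeff_zero] at h2
  rw [coeff_sub, coeff_mul_add_eq_of_natDegree_le hP (hR 2), coeff_mul_add_eq_of_natDegree_le hQ (hR 1)] at h2
  have h5 : ∀ x : F, lam * (lam * x)′ - lam * x * lam′ = lam ^ 2 * x′ := by
    intro x
    rw [Derivation.leibniz]
    simp only [smul_eq_mul]
    ring
  have h7 : ∀ i (x : F), (f i).coeff e = lam * x →
      (f 0 * mapCoeffs (f i) - f i * mapCoeffs (f 0)).coeff (e + e) = lam ^ 2 * x′ := by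
    intro i x hx
    rw [coeff_sub, coeff_mul_add_eq_of_natDegree_le (hd 0) (hM i),
      coeff_mul_add_eq_of_natDegree_le (hd i) (hM 0), coeff_mapCoeffs, coeff_mapCoeffs, e0, hx, h5]
  rw [h7 2 x2 e2, h7 1 x1 e1] at h2
  have h6 : lam ^ 2 * ((f 0 * derivative (f 1) - f 1 * derivative (f 0)).coeff n * x2′
      - (f 0 * derivative (f 2) - f 2 * derivative (f 0)).coeff n * x1′) = 0 := by
    linear_combination -h2
  rcases mul_eq_zero.1 h6 with h8 | h8
  · exact hlam (pow_eq_zero_iff (by norm_num) |>.1 h8)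
  · exact hne h8

end diff

end Pool.Agent.H436R3
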