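import Mathlib
import Pool.Agent.H436R3.WronC
import Pool.Agent.H436R3.PlaneOrb

/-!
# Counting the points of a rational curve on lines in general position
-/

set_option autoImplicit false

namespace Pool.Agent.H436R3

open Polynomial Differential

namespace RatCurve

theorem pull_eq_pl (γ : RatCurve) (ℓ : Fin 3 → ℂ) : γ.pull ℓ = pl γ.f ℓ := rfl

theorem natDegree_pull_le (γ : RatCurve) (ℓ : Fin 3 → ℂ) : (γ.pull ℓ).natDegree ≤ γ.e :=
  natDegree_pl_le _ _ γ.natDegree_le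

theorem val_ne_zero (γ : RatCurve) (a : Option ℂ) : γ.val a ≠ 0 := by
  intro h
  rcases a with _ | a
  · obtain ⟨i, hi⟩ := γ.infty
    exact hi (congrFun h i)
  · obtain ⟨i, hi⟩ := γ.finite a
    exact hi (congrFun h i)

theorem sum_val_some (γ : RatCurve) (ℓ : Fin 3 → ℂ) (a : ℂ) :
    ∑ i, ℓ i * γ.val (some a) i = (γ.pull ℓ).eval a := by
  simp [pull, val, eval_finsetSum]

theorem sum_val_none (γ : RatCurve) (ℓ : Fin 3 → ℂ) :
    ∑ i, ℓ i * γ.val none i = (γ.pull ℓ).coeff γ.e := by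
  simp [pull, val]

/-- `γ a` lies on the line as soon as the order is positive. -/
theorem sum_val_eq_zero (γ : RatCurve) (ℓ : Fin 3 → ℂ) (a : Option ℂ) (h : γ.ord ℓ a ≠ 0) :
    ∑ i, ℓ i * γ.val a i = 0 := by
  rcases a with _ | a
  · rw [sum_val_none]
    have h1 : γ.e - (γ.pull ℓ).natDegree ≠ 0 := h
    exact coeff_eq_zero_of_natDegree_lt (by omega)
  · rw [sum_val_some]
    have h1 : (γ.pull ℓ).rootMultiplicity a ≠ 0 := h
    exact (rootMultiplicity_pos' .. |>.1 (Nat.pos_of_ne_zero h1)).2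

end RatCurve

section

variable {d : ℕ} {ℓ : Fin d → Fin 3 → ℂ}

/-- Three independent linear forms have no common zero. -/
theorem det_ne_zero_of_general
    (general : ∀ s : Finset (Fin d), s.card ≤ 3 → LinearIndependent ℂ (fun j : s => ℓ j))
    {i j k : Fin d} (hij : i ≠ j) (hik : i ≠ k) (hjk : j ≠ k) :
    (Matrix.of ![ℓ i, ℓ j, ℓ k]).det ≠ 0 := by
  have h1 := general {i, j, k} (by
    rw [Finset.card_insert_of_notMem (by simp [hij, hik]), Finset.card_pair hjk])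
  let φ : Fin 3 → ({i, j, k} : Finset (Fin d)) :=
    ![⟨i, by simp⟩, ⟨j, by simp⟩, ⟨k, by simp⟩]
  have hφ : Function.Injective φ := by
    intro a b hab
    have h2 : ((φ a : Fin d)) = φ b := congrArg _ hab
    fin_cases a <;> fin_cases b <;> simp_all [φ]
  have h2 := h1.comp φ hφ
  have h3 : (fun j_1 : ({i, j, k} : Finset (Fin d)) => ℓ j_1) ∘ φ = ![ℓ i, ℓ j, ℓ k] := by
    funext a
    fin_cases a <;> rfl
  rw [h3] at h2
  have h4 : LinearIndependent ℂ (Matrix.of ![ℓ i, ℓ j, ℓ k]).row := h2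
  rw [Matrix.linearIndependent_rows_iff_isUnit, Matrix.isUnit_iff_isUnit_det] at h4
  exact h4.ne_zero

theorem three_zero
    (general : ∀ s : Finset (Fin d), s.card ≤ 3 → LinearIndependent ℂ (fun j : s => ℓ j))
    {i j k : Fin d} (hij : i ≠ j) (hik : i ≠ k) (hjk : j ≠ k) {x : Fin 3 → ℂ}
    (hi : ∑ t, ℓ i t * x t = 0) (hj : ∑ t, ℓ j t * x t = 0) (hk : ∑ t, ℓ k t * x t = 0) :
    x = 0 := by
  have h1 := det_ne_zero_of_general general hij hik hjk
  refine Matrix.eq_zero_of_mulVec_eq_zero h1 ?_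
  funext a
  fin_cases a
  · exact hi
  · exact hj
  · exact hk

/-- There are two indices `i ≠ k` such that the order at `a` vanishes for all other indices. -/
theorem exists_pair (hd : 3 ≤ d)
    (general : ∀ s : Finset (Fin d), s.card ≤ 3 → LinearIndependent ℂ (fun j : s => ℓ j))
    (γ : RatCurve) (a : Option ℂ) :
    ∃ i k : Fin d, i ≠ k ∧ ∀ j, j ≠ i → j ≠ k → γ.ord (ℓ j) a = 0 := by
  classical
  by_contra hcon
  push Not at hcon
  have h01 : (⟨0, by omega⟩ : Fin d) ≠ ⟨1, by omega⟩ := by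
    intro h
    simp at h
  obtain ⟨p, hp0, hp1, hp⟩ := hcon ⟨0, by omega⟩ ⟨1, by omega⟩ h01
  obtain ⟨q, hqp, hq0, hq⟩ := hcon p ⟨0, by omega⟩ hp0
  obtain ⟨r, hrp, hrq, hr⟩ := hcon p q hqp.symm
  exact γ.val_ne_zero a (three_zero general hqp.symm hrp.symm hrq.symm
    (γ.sum_val_eq_zero _ _ hp) (γ.sum_val_eq_zero _ _ hq) (γ.sum_val_eq_zero _ _ hr))

theorem sum_ord_eq {i k : Fin d} (hik : i ≠ k) (γ : RatCurve) (a : Option ℂ)
    (h : ∀ j, j ≠ i → j ≠ k → γ.ord (ℓ j) a = 0) :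
    ∑ j, γ.ord (ℓ j) a = γ.ord (ℓ i) a + γ.ord (ℓ k) a := by
  classical
  rw [← Finset.sum_pair hik (f := fun j => γ.ord (ℓ j) a)]
  symm
  apply Finset.sum_subset (Finset.subset_univ _)
  intro j _ hj
  simp only [Finset.mem_insert, Finset.mem_singleton, not_or] at hj
  exact h j hj.1 hj.2

theorem exists_third (hd : 3 ≤ d) (i k : Fin d) : ∃ l : Fin d, l ≠ i ∧ l ≠ k := by
  classical
  have h1 : (({i, k} : Finset (Fin d))ᶜ).Nonempty := by
    rw [← Finset.card_pos, Finset.card_compl, Fintype.card_fin]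
    have := Finset.card_le_two (a := i) (b := k)
    omega
  obtain ⟨l, hl⟩ := h1
  simp only [Finset.mem_compl, Finset.mem_insert, Finset.mem_singleton, not_or] at hl
  exact ⟨l, hl.1, hl.2⟩

variable [Differential ℂ]

/-- The order of the determinant at a finite point. -/
theorem sum_ord_le_fin (hd : 3 ≤ d)
    (general : ∀ s : Finset (Fin d), s.card ≤ 3 → LinearIndependent ℂ (fun j : s => ℓ j))
    (hc : ∀ j i, (ℓ j i)′ = 0) (γ : RatCurve) (hw : wr γ.f ≠ 0) (a : ℂ) :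
    ∑ j, γ.ord (ℓ j) (some a) - 1 ≤ (wr γ.f).rootMultiplicity a := by
  obtain ⟨i, k, hik, h⟩ := exists_pair hd general γ (some a)
  rw [sum_ord_eq hik γ _ h]
  obtain ⟨l, hli, hlk⟩ := exists_third hd i k
  have h1 := det_ne_zero_of_general general hik hli.symm hlk.symm
  have h2 := wr_pl γ.f ![ℓ i, ℓ k, ℓ l] (by
    intro a b
    fin_cases a
    · exact hc _ _
    · exact hc _ _
    · exact hc _ _)
  have h3 := pow_dvd_wr (a := a) (p := γ.ord (ℓ i) (some a)) (q := γ.ord (ℓ k) (some a))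
    (g := fun t => pl γ.f ((![ℓ i, ℓ k, ℓ l] : Fin 3 → Fin 3 → ℂ) t))
    (pow_rootMultiplicity_dvd _ _) (pow_rootMultiplicity_dvd _ _)
  rw [h2] at h3
  have h4 : IsUnit (C (Matrix.of ![ℓ i, ℓ k, ℓ l]).det) := isUnit_C.2 h1.isUnit
  rw [h4.dvd_mul_left] at h3
  exact (le_rootMultiplicity_iff hw).2 h3

/-- The degree of the determinant, with the point at infinity. -/
theorem sum_ord_le_inf (hd : 3 ≤ d)
    (general : ∀ s : Finset (Fin d), s.card ≤ 3 → LinearIndependent ℂ (fun j : s => ℓ j))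
    (hc : ∀ j i, (ℓ j i)′ = 0) (γ : RatCurve) (he : 1 ≤ γ.e) (hw : wr γ.f ≠ 0) :
    (wr γ.f).natDegree + (∑ j, γ.ord (ℓ j) none - 1) + 2 ≤ 3 * γ.e := by
  have h0 := natDegree_wr_le' he γ.natDegree_le hw
  rcases Nat.eq_zero_or_pos (∑ j, γ.ord (ℓ j) none) with hz | hz
  · omega
  obtain ⟨i, k, hik, h⟩ := exists_pair hd general γ none
  rw [sum_ord_eq hik γ _ h] at hz ⊢
  obtain ⟨l, hli, hlk⟩ := exists_third hd i k
  have h1 := det_ne_zero_of_general general hik hli.symm hlk.symm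
  have h2 := wr_pl γ.f ![ℓ i, ℓ k, ℓ l] (by
    intro a b
    fin_cases a
    · exact hc _ _
    · exact hc _ _
    · exact hc _ _)
  have h3 : wr (fun t => pl γ.f ((![ℓ i, ℓ k, ℓ l] : Fin 3 → Fin 3 → ℂ) t)) ≠ 0 := by
    rw [h2]
    exact mul_ne_zero (C_ne_zero.2 h1) hw
  have h4 := natDegree_wr_le (g := fun t => pl γ.f ((![ℓ i, ℓ k, ℓ l] : Fin 3 → Fin 3 → ℂ) t))
    (d := ![(γ.pull (ℓ i)).natDegree, (γ.pull (ℓ k)).natDegree, γ.e]) (by
      intro t
      fin_cases t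
      · exact le_rfl
      · exact le_rfl
      · exact γ.natDegree_pull_le _) h3
  rw [h2, natDegree_C_mul h1] at h4
  simp only [Matrix.cons_val_zero, Matrix.cons_val_one, Matrix.cons_val] at h4
  have e1 : γ.ord (ℓ i) none = γ.e - (γ.pull (ℓ i)).natDegree := rfl
  have e2 : γ.ord (ℓ k) none = γ.e - (γ.pull (ℓ k)).natDegree := rfl
  have n1 := γ.natDegree_pull_le (ℓ i)
  have n2 := γ.natDegree_pull_le (ℓ k)
  rw [e1, e2] at hz ⊢
  omega

end

end Pool.Agent.H436R3
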