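import Mathlib
import Pool.Agent.H436R3.Count

/-!
# Counting the points of a rational curve on lines in general position, II
-/

set_option autoImplicit false

namespace Pool.Agent.H436R3

open Polynomial Differential

variable {d : ℕ} {ℓ : Fin d → Fin 3 → ℂ}

open Classical in
/-- All points of `P^1` which may lie over one of the lines. -/
noncomputable def pts (ℓ : Fin d → Fin 3 → ℂ) (γ : RatCurve) : Finset (Option ℂ) :=
  Finset.insertNone (Finset.univ.biUnion fun j => (γ.pull (ℓ j)).roots.toFinset)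

theorem sum_ord_pts (γ : RatCurve) (h : ∀ j, γ.pull (ℓ j) ≠ 0) (j : Fin d) :
    ∑ a ∈ pts ℓ γ, γ.ord (ℓ j) a = γ.e := by
  classical
  rw [pts, Finset.sum_insertNone]
  have h1 : ∑ a ∈ Finset.univ.biUnion fun j => (γ.pull (ℓ j)).roots.toFinset,
      γ.ord (ℓ j) (some a) = (γ.pull (ℓ j)).natDegree := by
    have h2 : ∑ a ∈ (γ.pull (ℓ j)).roots.toFinset, γ.ord (ℓ j) (some a) =
        ∑ a ∈ Finset.univ.biUnion fun j => (γ.pull (ℓ j)).roots.toFinset,
          γ.ord (ℓ j) (some a) := by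
      apply Finset.sum_subset
      · exact Finset.subset_biUnion_of_mem (fun j => (γ.pull (ℓ j)).roots.toFinset)
          (Finset.mem_univ j)
      · intro a _ ha
        rw [Multiset.mem_toFinset, mem_roots (h j)] at ha
        exact rootMultiplicity_eq_zero ha
    rw [← h2]
    have h3 : Multiset.card (γ.pull (ℓ j)).roots = (γ.pull (ℓ j)).natDegree :=
      (IsAlgClosed.splits (γ.pull (ℓ j))).natDegree_eq_card_roots.symm
    rw [← h3, ← Multiset.toFinset_sum_count_eq]
    refine Finset.sum_congr rfl fun a _ => ?_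
    rw [count_roots]
    rfl
  rw [h1]
  have h4 := γ.natDegree_pull_le (ℓ j)
  have h5 : γ.ord (ℓ j) none = γ.e - (γ.pull (ℓ j)).natDegree := rfl
  omega

variable [Differential ℂ]

theorem sum_sub_one_le (hd : 3 ≤ d)
    (general : ∀ s : Finset (Fin d), s.card ≤ 3 → LinearIndependent ℂ (fun j : s => ℓ j))
    (hc : ∀ j i, (ℓ j i)′ = 0) (γ : RatCurve) (he : 1 ≤ γ.e) (hw : wr γ.f ≠ 0) :
    ∑ a ∈ pts ℓ γ, (∑ j, γ.ord (ℓ j) a - 1) + 2 ≤ 3 * γ.e := by
  classical
  rw [pts, Finset.sum_insertNone]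
  have h1 : ∑ a ∈ Finset.univ.biUnion fun j => (γ.pull (ℓ j)).roots.toFinset,
      (∑ j, γ.ord (ℓ j) (some a) - 1) ≤ (wr γ.f).natDegree := by
    calc _ ≤ ∑ a ∈ Finset.univ.biUnion fun j => (γ.pull (ℓ j)).roots.toFinset,
          (wr γ.f).rootMultiplicity a :=
          Finset.sum_le_sum fun a _ => sum_ord_le_fin hd general hc γ hw a
      _ ≤ ∑ a ∈ (Finset.univ.biUnion fun j => (γ.pull (ℓ j)).roots.toFinset) ∪
          (wr γ.f).roots.toFinset, (wr γ.f).rootMultiplicity a :=
          Finset.sum_le_sum_of_subset Finset.subset_union_left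
      _ = ∑ a ∈ (wr γ.f).roots.toFinset, (wr γ.f).rootMultiplicity a := by
          symm
          apply Finset.sum_subset Finset.subset_union_right
          intro a _ ha
          rw [Multiset.mem_toFinset, mem_roots hw] at ha
          exact rootMultiplicity_eq_zero ha
      _ = Multiset.card (wr γ.f).roots := by
          rw [← Multiset.toFinset_sum_count_eq]
          refine Finset.sum_congr rfl fun a _ => ?_
          rw [count_roots]
      _ ≤ (wr γ.f).natDegree := card_roots' _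
  have h2 := sum_ord_le_inf hd general hc γ he hw
  omega

open Classical in
/-- The number of points where the curve meets some line transversally. -/
theorem card_transversal (hd : 3 ≤ d)
    (general : ∀ s : Finset (Fin d), s.card ≤ 3 → LinearIndependent ℂ (fun j : s => ℓ j))
    (hc : ∀ j i, (ℓ j i)′ = 0) (γ : RatCurve) (he : 1 ≤ γ.e) (hw : wr γ.f ≠ 0)
    (h : ∀ j, γ.pull (ℓ j) ≠ 0) :
    d * γ.e + 4 ≤ 6 * γ.e + ((pts ℓ γ).filter fun a => ∃ j, γ.ord (ℓ j) a = 1).card := by
  have h1 := sum_sub_one_le hd general hc γ he hw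
  have h2 : ∑ a ∈ pts ℓ γ, ∑ j, γ.ord (ℓ j) a = d * γ.e := by
    rw [Finset.sum_comm, Finset.sum_congr rfl fun j _ => sum_ord_pts γ h j]
    simp
  have h3 : ∀ a ∈ pts ℓ γ, ∑ j, γ.ord (ℓ j) a ≤ 2 * (∑ j, γ.ord (ℓ j) a - 1) +
      (if ∃ j, γ.ord (ℓ j) a = 1 then 1 else 0) := by
    intro a _
    by_cases hT : ∑ j, γ.ord (ℓ j) a = 1
    · have h4 : ∃ j, γ.ord (ℓ j) a = 1 := by
        by_contra hcon
        push Not at hcon
        have h5 : ∃ j, γ.ord (ℓ j) a ≠ 0 := by
          by_contra h6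
          push Not at h6
          rw [Finset.sum_eq_zero fun j _ => h6 j] at hT
          omega
        obtain ⟨j, hj⟩ := h5
        have h6 : γ.ord (ℓ j) a ≤ ∑ j, γ.ord (ℓ j) a :=
          Finset.single_le_sum (f := fun j => γ.ord (ℓ j) a) (fun _ _ => Nat.zero_le _)
            (Finset.mem_univ j)
        have := hcon j
        omega
      rw [if_pos h4]
      omega
    · omega
  have h4 := Finset.sum_le_sum h3
  rw [Finset.sum_add_distrib, ← Finset.mul_sum, h2, ← Finset.card_filter] at h4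
  omega

open Classical in
/-- The number of points of the curve on the lines. -/
theorem card_points (hd : 3 ≤ d)
    (general : ∀ s : Finset (Fin d), s.card ≤ 3 → LinearIndependent ℂ (fun j : s => ℓ j))
    (hc : ∀ j i, (ℓ j i)′ = 0) (γ : RatCurve) (he : 1 ≤ γ.e) (hw : wr γ.f ≠ 0)
    (h : ∀ j, γ.pull (ℓ j) ≠ 0) :
    d * γ.e + 2 ≤ 3 * γ.e + ((pts ℓ γ).filter fun a => ∃ j, γ.ord (ℓ j) a ≠ 0).card := by
  have h1 := sum_sub_one_le hd general hc γ he hw
  have h2 : ∑ a ∈ pts ℓ γ, ∑ j, γ.ord (ℓ j) a = d * γ.e := by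
    rw [Finset.sum_comm, Finset.sum_congr rfl fun j _ => sum_ord_pts γ h j]
    simp
  have h3 : ∀ a ∈ pts ℓ γ, ∑ j, γ.ord (ℓ j) a ≤ (∑ j, γ.ord (ℓ j) a - 1) +
      (if ∃ j, γ.ord (ℓ j) a ≠ 0 then 1 else 0) := by
    intro a _
    by_cases hT : ∑ j, γ.ord (ℓ j) a = 0
    · omega
    · have h5 : ∃ j, γ.ord (ℓ j) a ≠ 0 := by
        by_contra h6
        push Not at h6
        exact hT (Finset.sum_eq_zero fun j _ => h6 j)
      rw [if_pos h5]
      omega
  have h4 := Finset.sum_le_sum h3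
  rw [Finset.sum_add_distrib, h2, ← Finset.card_filter] at h4
  omega

end Pool.Agent.H436R3
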