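import Mathlib
import Pool.Agent.H436R3.PlaneOrb

/-!
# Very general points of the plane
-/

set_option autoImplicit false

namespace Pool.Agent.H436R3

open MvPolynomial

/-- The exponent of the homogenised monomial. -/
noncomputable def hex (N : ℕ) (m : Fin 2 →₀ ℕ) : Fin 3 →₀ ℕ := Finsupp.cons (N - m.degree) m

theorem hex_inj {N : ℕ} {m m' : Fin 2 →₀ ℕ} (h : hex N m = hex N m') : m = m' := by
  have := congrArg Finsupp.tail h
  simpa [hex] using this

/-- Homogenisation of a polynomial in two variables. -/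
noncomputable def hz {K : Type} [Field K] [Algebra K ℂ] (q : MvPolynomial (Fin 2) K) :
    MvPolynomial (Fin 3) ℂ :=
  ∑ m ∈ q.support, monomial (hex q.totalDegree m) (algebraMap K ℂ (q.coeff m))

variable {K : Type} [Field K] [Algebra K ℂ]

theorem hz_ne_zero {q : MvPolynomial (Fin 2) K} (hq : q ≠ 0) : hz q ≠ 0 := by
  classical
  obtain ⟨m, hm⟩ := MvPolynomial.support_nonempty.2 hq
  intro h
  have h1 := congrArg (coeff (hex q.totalDegree m)) h
  rw [hz, coeff_sum, Finset.sum_eq_single m] at h1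
  · rw [coeff_monomial, if_pos rfl, coeff_zero, map_eq_zero] at h1
    exact mem_support_iff.1 hm h1
  · intro m' _ hne
    rw [coeff_monomial, if_neg]
    intro h2
    exact hne (hex_inj h2)
  · intro h2
    exact absurd hm h2

theorem hz_homog (q : MvPolynomial (Fin 2) K) : (hz q).IsHomogeneous q.totalDegree := by
  apply IsHomogeneous.sum
  intro m hm
  apply isHomogeneous_monomial
  have h1 : m.degree ≤ q.totalDegree := by
    have := le_totalDegree hm
    simpa [Finsupp.degree, Finsupp.sum] using this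
  have h2 : (hex q.totalDegree m).degree = (q.totalDegree - m.degree) + m.degree := by
    rw [hex, Finsupp.degree_eq_sum, Fin.sum_univ_succ]
    simp [Finsupp.degree_eq_sum]
  rw [h2]
  omega

theorem eval_hz (q : MvPolynomial (Fin 2) K) {x : Fin 3 → ℂ} (hx : x 0 ≠ 0) :
    eval x (hz q) = x 0 ^ q.totalDegree * aeval ![x 1 / x 0, x 2 / x 0] q := by
  have hq : aeval ![x 1 / x 0, x 2 / x 0] q =
      ∑ m ∈ q.support, aeval ![x 1 / x 0, x 2 / x 0] (monomial m (coeff m q)) := by
    conv_lhs => rw [q.as_sum]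
    rw [map_sum]
  rw [hq, hz, map_sum, Finset.mul_sum]
  refine Finset.sum_congr rfl fun m hm => ?_
  have h1 : m.degree ≤ q.totalDegree := by
    have := le_totalDegree hm
    simpa [Finsupp.degree, Finsupp.sum] using this
  rw [eval_monomial, aeval_monomial]
  rw [Finsupp.prod_fintype _ _ (by simp), Finsupp.prod_fintype _ _ (by simp),
    Fin.prod_univ_succ]
  simp only [Fin.prod_univ_two, hex, Finsupp.cons_zero, Finsupp.cons_succ, Matrix.cons_val_zero,
    Matrix.cons_val_one]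
  have e1 : (Fin.succ 0 : Fin 3) = 1 := rfl
  have e2 : (Fin.succ 1 : Fin 3) = 2 := rfl
  rw [e1, e2]
  obtain ⟨k, hk⟩ := Nat.exists_eq_add_of_le h1
  have h3 : m.degree = m 0 + m 1 := by
    rw [Finsupp.degree_eq_sum, Fin.sum_univ_two]
  rw [hk, Nat.add_sub_cancel_left, h3, div_pow, div_pow, pow_add, pow_add]
  have e3 : x 0 ^ m 0 ≠ 0 := pow_ne_zero _ hx
  have e4 : x 0 ^ m 1 ≠ 0 := pow_ne_zero _ hx
  field_simp

/-- Very general points have algebraically independent affine coordinates over a given countable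
field. -/
theorem exists_family (K : Type) [Field K] [Algebra K ℂ] [Countable K] :
    ∃ Z : ℕ → MvPolynomial (Fin 3) ℂ, (∀ n, Z n ≠ 0 ∧ ∃ k, (Z n).IsHomogeneous k) ∧
    ∀ x : Fin 3 → ℂ, x ≠ 0 → (∀ n, MvPolynomial.eval x (Z n) ≠ 0) →
      x 0 ≠ 0 ∧ AlgebraicIndependent K ![x 1 / x 0, x 2 / x 0] := by
  classical
  have hcount : Countable (MvPolynomial (Fin 2) K) := by
    rw [← Cardinal.mk_le_aleph0_iff]
    refine (MvPolynomial.cardinalMk_le_max (σ := Fin 2) (R := K)).trans ?_
    exact max_le (max_le Cardinal.mk_le_aleph0 Cardinal.mk_le_aleph0) le_rfl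
  let S : Set (MvPolynomial (Fin 3) ℂ) := {Z | ∃ q : MvPolynomial (Fin 2) K, q ≠ 0 ∧ Z = hz q} ∪
    {X 0}
  have hS : S.Countable := by
    refine Set.Countable.union ?_ (Set.countable_singleton _)
    refine (Set.countable_range (fun q : MvPolynomial (Fin 2) K => hz q)).mono ?_
    rintro Z ⟨q, _, rfl⟩
    exact ⟨q, rfl⟩
  have hne : S.Nonempty := ⟨X 0, Or.inr rfl⟩
  obtain ⟨Z, hZ⟩ := hS.exists_eq_range hne
  refine ⟨Z, ?_, ?_⟩
  · intro n
    have h1 : Z n ∈ S := hZ ▸ ⟨n, rfl⟩
    rcases h1 with ⟨q, hq, h2⟩ | h2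
    · rw [h2]
      exact ⟨hz_ne_zero hq, _, hz_homog q⟩
    · have h3 : Z n = X 0 := h2
      rw [h3]
      exact ⟨X_ne_zero _, 1, isHomogeneous_X _ _⟩
  · intro x _ hx
    have hx0 : x 0 ≠ 0 := by
      have h1 : (X 0 : MvPolynomial (Fin 3) ℂ) ∈ Set.range Z := hZ ▸ Or.inr rfl
      obtain ⟨n, hn⟩ := h1
      have := hx n
      rw [hn, eval_X] at this
      exact this
    refine ⟨hx0, ?_⟩
    rw [algebraicIndependent_iff]
    intro q hq0
    by_contra hq
    have h1 : hz q ∈ Set.range Z := hZ ▸ Or.inl ⟨q, hq, rfl⟩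
    obtain ⟨n, hn⟩ := h1
    apply hx n
    rw [hn, eval_hz q hx0, hq0, mul_zero]

/-- Countably many non-zero polynomials have a common non-zero. -/
theorem exists_avoid (W : ℕ → MvPolynomial (Fin 3) ℂ) (h : ∀ n, W n ≠ 0) :
    ∃ x : Fin 3 → ℂ, x ≠ 0 ∧ ∀ n, MvPolynomial.eval x (W n) ≠ 0 := by
  have hd : ∀ p : MvPolynomial (Fin 3) ℂ, p ≠ 0 → Dense {x : Fin 3 → ℂ | eval x p ≠ 0} := by
    intro p hp
    rw [dense_iff_inter_open]
    intro U hU ⟨y, hy⟩
    by_contra hcon
    rw [Set.not_nonempty_iff_eq_empty, Set.eq_empty_iff_forall_notMem] at hcon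
    obtain ⟨ε, hε, hball⟩ := Metric.isOpen_iff.1 hU y hy
    apply hp
    refine MvPolynomial.funext_set (fun i => Metric.ball (y i) ε) (fun i => ?_) ?_
    · exact infinite_of_mem_nhds (y i) (Metric.ball_mem_nhds _ hε)
    · intro x hx
      rw [map_zero]
      by_contra hne
      refine hcon x ⟨hball ?_, hne⟩
      rw [ball_pi _ hε]
      exact hx
  have ho : ∀ p : MvPolynomial (Fin 3) ℂ, IsOpen {x : Fin 3 → ℂ | eval x p ≠ 0} := by
    intro p
    exact isOpen_ne_fun (MvPolynomial.continuous_eval p) continuous_const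
  have h1 : ∀ n, W n * X 0 ≠ 0 := fun n => mul_ne_zero (h n) (X_ne_zero _)
  obtain ⟨x, hx⟩ := (dense_iInter_of_isOpen_nat (fun n => ho _) (fun n => hd _ (h1 n))).nonempty
  rw [Set.mem_iInter] at hx
  have h2 : ∀ n, eval x (W n) * x 0 ≠ 0 := by
    intro n
    have := hx n
    simpa using this
  refine ⟨x, ?_, fun n => left_ne_zero_of_mul (h2 n)⟩
  intro h0
  exact right_ne_zero_of_mul (h2 0) (by rw [h0]; rfl)

/-- Two properties which hold for very general points hold for a common point. -/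
theorem VeryGeneral.exists_common {P Q : (Fin 3 → ℂ) → Prop} (hP : VeryGeneral P)
    (hQ : VeryGeneral Q) : ∃ x, x ≠ 0 ∧ P x ∧ Q x := by
  obtain ⟨Z, hZ, h1⟩ := hP
  obtain ⟨W, hW, h2⟩ := hQ
  obtain ⟨x, hx, h3⟩ := exists_avoid (fun n => Z n * W n) (fun n => mul_ne_zero (hZ n).1 (hW n).1)
  refine ⟨x, hx, h1 x hx fun n => ?_, h2 x hx fun n => ?_⟩
  · have := h3 n
    rw [map_mul] at this
    exact left_ne_zero_of_mul this
  · have := h3 n
    rw [map_mul] at this
    exact right_ne_zero_of_mul this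

end Pool.Agent.H436R3
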