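import Mathlib
import Pool.Agent.H135R2.VS.Der
import Pool.Agent.H436R3.CountB
import Pool.Agent.H436R3.VG

/-!
# Rational curves through a very general point of the plane meet lines in many points
-/

set_option autoImplicit false

namespace Pool.Agent.H436R3

open Polynomial Differential

/-- A derivation over a subfield gives a differential structure on the complex numbers. -/
@[instance_reducible] noncomputable def diffOf {K : Type} [Field K] [Algebra K ℂ] (D : Derivation K ℂ ℂ) :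
    Differential ℂ := ⟨{ D.toLinearMap.toAddMonoidHom.toIntLinearMap with
      map_one_eq_zero' := by simp
      leibniz' := fun a b => D.leibniz a b }⟩

theorem diffOf_deriv {K : Type} [Field K] [Algebra K ℂ] (D : Derivation K ℂ ℂ) (x : ℂ) :
    (diffOf D).deriv x = D x := rfl

theorem exists_pow_mul {a : ℂ} {M N : ℂ[X]} (h : M ≠ 0 ∨ N ≠ 0) :
    ∃ (n : ℕ) (P Q : ℂ[X]), M = (X - C a) ^ n * P ∧ N = (X - C a) ^ n * Q ∧
      (P.eval a ≠ 0 ∨ Q.eval a ≠ 0) := by
  classical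
  have key : ∀ {M N : ℂ[X]}, M ≠ 0 → (N = 0 ∨ M.rootMultiplicity a ≤ N.rootMultiplicity a) →
      ∃ (n : ℕ) (P Q : ℂ[X]), M = (X - C a) ^ n * P ∧ N = (X - C a) ^ n * Q ∧
      (P.eval a ≠ 0) := by
    intro M N hM hN
    obtain ⟨P, hP, hPa⟩ := exists_eq_pow_rootMultiplicity_mul_and_not_dvd M hM a
    have hN' : (X - C a) ^ M.rootMultiplicity a ∣ N := by
      rcases hN with h0 | h1
      · rw [h0]
        exact dvd_zero _
      · exact (pow_dvd_pow _ h1).trans (pow_rootMultiplicity_dvd _ _)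
    obtain ⟨Q, hQ⟩ := hN'
    refine ⟨_, P, Q, hP, hQ, ?_⟩
    intro h0
    exact hPa (dvd_iff_isRoot.2 h0)
  by_cases hM : M = 0
  · have hN : N ≠ 0 := h.resolve_left (fun h => h hM)
    obtain ⟨n, P, Q, h1, h2, h3⟩ := key hN (Or.inl hM)
    exact ⟨n, Q, P, h2, h1, Or.inr h3⟩
  by_cases hN : N = 0
  · obtain ⟨n, P, Q, h1, h2, h3⟩ := key hM (Or.inl hN)
    exact ⟨n, P, Q, h1, h2, Or.inl h3⟩
  rcases le_total (M.rootMultiplicity a) (N.rootMultiplicity a) with hle | hle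
  · obtain ⟨n, P, Q, h1, h2, h3⟩ := key hM (Or.inr hle)
    exact ⟨n, P, Q, h1, h2, Or.inl h3⟩
  · obtain ⟨n, P, Q, h1, h2, h3⟩ := key hN (Or.inr hle)
    exact ⟨n, Q, P, h2, h1, Or.inr h3⟩

theorem exists_coeff_ne {M N : ℂ[X]} (h : M ≠ 0 ∨ N ≠ 0) :
    ∃ n : ℕ, M.natDegree ≤ n ∧ N.natDegree ≤ n ∧ (M.coeff n ≠ 0 ∨ N.coeff n ≠ 0) := by
  have key : ∀ {M : ℂ[X]}, M ≠ 0 → M.coeff M.natDegree ≠ 0 := fun h =>
    leadingCoeff_ne_zero.2 h
  rcases le_total M.natDegree N.natDegree with hle | hle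
  · by_cases hN : N = 0
    · have hM := h.resolve_right (fun h => h hN)
      refine ⟨M.natDegree, le_rfl, by rw [hN]; simp, Or.inl (key hM)⟩
    · exact ⟨N.natDegree, hle, le_rfl, Or.inr (key hN)⟩
  · by_cases hM : M = 0
    · have hN := h.resolve_left (fun h => h hM)
      refine ⟨N.natDegree, by rw [hM]; simp, le_rfl, Or.inr (key hN)⟩
    · exact ⟨M.natDegree, le_rfl, hle, Or.inl (key hM)⟩

/-- Two numbers `v` with `p * v 1 - q * v 0 ≠ 0`. -/
theorem exists_values {p q : ℂ} (h : p ≠ 0 ∨ q ≠ 0) : ∃ v : Fin 2 → ℂ, p * v 1 - q * v 0 ≠ 0 := by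
  rcases h with h | h
  · exact ⟨![0, 1], by simpa using h⟩
  · exact ⟨![1, 0], by simpa using h⟩

/-- There is a derivation killing `K` for which the determinant does not vanish. -/
theorem exists_derivation {K : Type} [Field K] [Algebra K ℂ] [CharZero K] (γ : RatCurve)
    (he : 1 ≤ γ.e) {x : Fin 3 → ℂ} (hx0 : x 0 ≠ 0)
    (hx : AlgebraicIndependent K ![x 1 / x 0, x 2 / x 0]) (hγ : γ.Through x) :
    ∃ D : Derivation K ℂ ℂ, @wr ℂ _ (diffOf D) γ.f ≠ 0 := by
  obtain ⟨a, r, hr, ha⟩ := hγ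
  have v0 : γ.val a 0 = r * x 0 := by rw [ha]; rfl
  have v1 : γ.val a 1 = r * x 0 * (x 1 / x 0) := by
    rw [ha, mul_assoc, mul_div_cancel₀ _ hx0]; rfl
  have v2 : γ.val a 2 = r * x 0 * (x 2 / x 0) := by
    rw [ha, mul_assoc, mul_div_cancel₀ _ hx0]; rfl
  have hlam : r * x 0 ≠ 0 := mul_ne_zero hr hx0
  have hf0 : γ.f 0 ≠ 0 := by
    intro h0
    apply hlam
    rw [← v0]
    rcases a with _ | a
    · simp [RatCurve.val, h0]
    · simp [RatCurve.val, h0]
  have hW := exists_wronskian_ne he γ.infty γ.finite hf0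
  rcases a with _ | a
  · obtain ⟨n, hn1, hn2, hn3⟩ := exists_coeff_ne hW
    obtain ⟨v, hv⟩ := exists_values hn3
    obtain ⟨D, hD⟩ := Pool.Agent.H135R2.VS.exists_der hx v
    refine ⟨D, ?_⟩
    let _ : Differential ℂ := diffOf D
    refine wr_ne_zero_inf hlam γ.natDegree_le v0 v1 v2 hn1 hn2 ?_
    change _ * D (x 2 / x 0) - _ * D (x 1 / x 0) ≠ 0
    have h1 : D (x 1 / x 0) = v 0 := hD 0
    have h2 : D (x 2 / x 0) = v 1 := hD 1
    rw [h1, h2]
    exact hv
  · obtain ⟨n, P, Q, hP, hQ, hPQ⟩ := exists_pow_mul (a := a) hW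
    obtain ⟨v, hv⟩ := exists_values hPQ
    obtain ⟨D, hD⟩ := Pool.Agent.H135R2.VS.exists_der hx v
    refine ⟨D, ?_⟩
    let _ : Differential ℂ := diffOf D
    refine wr_ne_zero_fin hlam v0 v1 v2 hP hQ ?_
    change _ * D (x 2 / x 0) - _ * D (x 1 / x 0) ≠ 0
    have h1 : D (x 1 / x 0) = v 0 := hD 0
    have h2 : D (x 2 / x 0) = v 1 := hD 1
    rw [h1, h2]
    exact hv

open Classical in
/-- The main estimate: a non-constant rational curve of degree `e` through a point which is very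
general with respect to `d` lines in general position meets the lines in at least
`(d - 3) e + 2` points, and in at least `(d - 6) e + 4` points transversally to one of the lines
through that point. -/
theorem estimate {K : Type} [Field K] [Algebra K ℂ] [CharZero K] {d : ℕ} (hd : 3 ≤ d)
    {ℓ : Fin d → Fin 3 → ℂ}
    (general : ∀ s : Finset (Fin d), s.card ≤ 3 → LinearIndependent ℂ (fun j : s => ℓ j))
    (hK : ∀ j i, ∃ k : K, algebraMap K ℂ k = ℓ j i) (γ : RatCurve)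
    (he : 1 ≤ γ.e) (h : ∀ j, γ.pull (ℓ j) ≠ 0) {x : Fin 3 → ℂ} (hx0 : x 0 ≠ 0)
    (hx : AlgebraicIndependent K ![x 1 / x 0, x 2 / x 0]) (hγ : γ.Through x) :
    d * γ.e + 2 ≤ 3 * γ.e + ((pts ℓ γ).filter fun a => ∃ j, γ.ord (ℓ j) a ≠ 0).card ∧
    d * γ.e + 4 ≤ 6 * γ.e + ((pts ℓ γ).filter fun a => ∃ j, γ.ord (ℓ j) a = 1).card := by
  obtain ⟨D, hD⟩ := exists_derivation γ he hx0 hx hγ
  let _ : Differential ℂ := diffOf D
  have hc : ∀ j i, (ℓ j i)′ = 0 := by
    intro j i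
    obtain ⟨k, hk⟩ := hK j i
    change D (ℓ j i) = 0
    rw [← hk]
    exact D.map_algebraMap k
  exact ⟨card_points hd general hc γ he hD h, card_transversal hd general hc γ he hD h⟩

/-- The field generated by the coefficients of the lines. -/
noncomputable def lineField {d : ℕ} (ℓ : Fin d → Fin 3 → ℂ) : IntermediateField ℚ ℂ :=
  IntermediateField.adjoin ℚ (Set.range fun p : Fin d × Fin 3 => ℓ p.1 p.2)

instance countable_lineField {d : ℕ} (ℓ : Fin d → Fin 3 → ℂ) : Countable (lineField ℓ) := by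
  have h1 : Cardinal.mk (lineField ℓ) ≤ Cardinal.aleph0 := by
    refine (Subfield.cardinalMk_closure_le_max _).trans (max_le ?_ le_rfl)
    rw [Cardinal.mk_le_aleph0_iff]
    exact ((Set.countable_range _).union (Set.countable_range _)).to_subtype
  exact Cardinal.mk_le_aleph0_iff.1 h1

open Classical in
/-- The main estimate at very general points. -/
theorem veryGeneral_estimate {d : ℕ} (hd : 3 ≤ d) {ℓ : Fin d → Fin 3 → ℂ}
    (general : ∀ s : Finset (Fin d), s.card ≤ 3 → LinearIndependent ℂ (fun j : s => ℓ j)) :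
    VeryGeneral fun x => ∀ γ : RatCurve, 1 ≤ γ.e → (∀ j, γ.pull (ℓ j) ≠ 0) → γ.Through x →
    d * γ.e + 2 ≤ 3 * γ.e + ((pts ℓ γ).filter fun a => ∃ j, γ.ord (ℓ j) a ≠ 0).card ∧
    d * γ.e + 4 ≤ 6 * γ.e + ((pts ℓ γ).filter fun a => ∃ j, γ.ord (ℓ j) a = 1).card := by
  obtain ⟨Z, hZ, h1⟩ := exists_family (lineField ℓ)
  refine ⟨Z, hZ, fun x hx hn γ he h hγ => ?_⟩
  obtain ⟨hx0, hx1⟩ := h1 x hx hn
  refine estimate (K := lineField ℓ) hd general (fun j i => ?_) γ he h hx0 hx1 hγ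
  exact ⟨⟨ℓ j i, IntermediateField.subset_adjoin _ _ ⟨(j, i), rfl⟩⟩, rfl⟩

end Pool.Agent.H436R3
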