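import Mathlib
import Pool.Agent.H436R3.MainA

/-!
# Plane orbifold pairs with few orbifold rational curves
-/

set_option autoImplicit false

namespace Pool.Agent.H436R3

open Polynomial

theorem le_of_mult_le {c r : ℚ} (hc : c ≤ 1) (h : mult c ≤ mult r) : c ≤ r := by
  rw [mult, mult, ENNReal.inv_le_inv, ENNReal.ofReal_le_ofReal_iff (by
    have : (c : ℝ) ≤ 1 := by exact_mod_cast hc
    linarith)] at h
  have : (c : ℝ) ≤ r := by linarith
  exact_mod_cast this

/-- The arithmetic of the count. -/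
theorem count_arith {d e n : ℕ} (hd : 6 ≤ d) (he : 1 ≤ e) (h : d * e + 4 ≤ 6 * e + n) :
    d - 2 ≤ n := by
  obtain ⟨k, rfl⟩ := Nat.exists_eq_add_of_le hd
  obtain ⟨f, rfl⟩ := Nat.exists_eq_add_of_le he
  have h1 : (6 + k) * (1 + f) = 6 * (1 + f) + k + k * f := by ring
  have h2 : 0 ≤ k * f := Nat.zero_le _
  omega

theorem veryGeneral_not_curveThrough {d : ℕ} (hd : 6 ≤ d) (P : PlaneOrbifold d)
    (hc : ∀ j, (2 : ℚ) / (d - 2) ≤ P.c j) : VeryGeneral fun x => ¬ P.CurveThrough x := by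
  classical
  obtain ⟨Z, hZ, h1⟩ := veryGeneral_estimate (by omega : 3 ≤ d) P.general
  refine ⟨Z, hZ, fun x hx hn => ?_⟩
  rintro ⟨γ, δ, ⟨hγδ, hdeg⟩, hγx⟩
  obtain ⟨-, h2⟩ := h1 x hx hn γ hγδ.nonconst hγδ.not_subset hγx
  have h3 := count_arith hd hγδ.nonconst h2
  let N := (pts P.ℓ γ).filter fun a => ∃ j, γ.ord (P.ℓ j) a = 1
  have hd0 : (0 : ℚ) < d - 2 := by
    have : (6 : ℚ) ≤ d := by exact_mod_cast hd
    linarith
  have h4 : ∀ a ∈ N, (2 : ℚ) / (d - 2) ≤ δ a := by
    intro a ha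
    obtain ⟨j, hj⟩ := (Finset.mem_filter.1 ha).2
    have h5 := hγδ.le_mult a j (γ.sum_val_eq_zero _ _ (by omega))
    rw [hj, Nat.cast_one, one_mul] at h5
    exact (hc j).trans (le_of_mult_le (P.c_le_one j) h5)
  have h5 : (2 : ℚ) ≤ ∑ a ∈ N, δ a := by
    calc (2 : ℚ) = (d - 2) * (2 / (d - 2)) := by field_simp
      _ ≤ (N.card : ℚ) * (2 / (d - 2)) := by
          apply mul_le_mul_of_nonneg_right _ (by positivity)
          have h6 : ((d - 2 : ℕ) : ℚ) ≤ N.card := by exact_mod_cast h3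
          rwa [Nat.cast_sub (by omega)] at h6
      _ = ∑ _a ∈ N, (2 / (d - 2) : ℚ) := by simp
      _ ≤ ∑ a ∈ N, δ a := Finset.sum_le_sum h4
  have h6 : ∑ a ∈ N, δ a ≤ δ.sum fun _ r => r := by
    rw [Finsupp.sum]
    apply Finset.sum_le_sum_of_subset_of_nonneg
    · intro a ha
      rw [Finsupp.mem_support_iff]
      have h7 := h4 a ha
      have h8 : (0 : ℚ) < 2 / (d - 2) := by positivity
      linarith
    · intro a _ _
      exact hγδ.coeff_nonneg a
  linarith

theorem not_isUniruled {d : ℕ} (hd : 6 ≤ d) (P : PlaneOrbifold d)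
    (hc : ∀ j, (2 : ℚ) / (d - 2) ≤ P.c j) : ¬ P.IsUniruled := by
  intro h
  obtain ⟨x, _, h1, h2⟩ := h.exists_common (veryGeneral_not_curveThrough hd P hc)
  exact h2 h1

/-- Lines in general position: the lines `x_0 + j x_1 + j ^ 2 x_2 = 0`. -/
theorem moment_general (d : ℕ) (s : Finset (Fin d)) (hs : s.card ≤ 3) :
    LinearIndependent ℂ (fun j : s => (fun i : Fin 3 => ((j : Fin d) : ℂ) ^ (i : ℕ))) := by
  classical
  rw [linearIndependent_iff']
  intro t g hg i hi
  let p : ℂ[X] := ∏ k ∈ s.erase i, (X - C ((k : Fin d) : ℂ))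
  have hp : p.natDegree ≤ 2 := by
    rw [natDegree_prod_of_monic _ _ fun k _ => monic_X_sub_C _]
    simp only [natDegree_X_sub_C, Finset.sum_const, smul_eq_mul, mul_one]
    rw [Finset.card_erase_of_mem i.2]
    omega
  have hev : ∀ z : ℂ, p.eval z = ∑ m : Fin 3, p.coeff m * z ^ (m : ℕ) := by
    intro z
    rw [eval_eq_sum_range' (n := 3) (by omega), Finset.sum_range]
  have h1 : ∑ k ∈ t, g k * p.eval (((k : s) : Fin d) : ℂ) = 0 := by
    have h2 : ∀ m : Fin 3, ∑ k ∈ t, g k * (((k : s) : Fin d) : ℂ) ^ (m : ℕ) = 0 := by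
      intro m
      have := congrFun hg m
      simpa using this
    calc ∑ k ∈ t, g k * p.eval (((k : s) : Fin d) : ℂ)
        = ∑ m : Fin 3, p.coeff m * ∑ k ∈ t, g k * (((k : s) : Fin d) : ℂ) ^ (m : ℕ) := by
          simp only [hev, Finset.mul_sum]
          rw [Finset.sum_comm]
          refine Finset.sum_congr rfl fun _ _ => Finset.sum_congr rfl fun _ _ => by ring
      _ = 0 := by simp [h2]
  rw [Finset.sum_eq_single i] at h1
  · refine (mul_eq_zero.1 h1).resolve_right ?_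
    simp only [p, eval_prod, eval_sub, eval_X, eval_C]
    rw [← ne_eq, Finset.prod_ne_zero_iff]
    intro k hk
    rw [sub_ne_zero]
    intro h2
    have h3 : (i : Fin d) = k := by
      apply Fin.ext
      exact_mod_cast h2
    exact (Finset.ne_of_mem_erase hk) h3.symm
  · intro k _ hki
    have h2 : p.eval (((k : s) : Fin d) : ℂ) = 0 := by
      simp only [p, eval_prod, eval_sub, eval_X, eval_C]
      refine Finset.prod_eq_zero (i := (k : Fin d)) ?_ (sub_self _)
      exact Finset.mem_erase.2 ⟨fun h => hki (Subtype.ext h), k.2⟩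
    rw [h2, mul_zero]
  · intro h2
    exact absurd hi h2

/-- The orbifold pair with support the lines `x_0 + j x_1 + j ^ 2 x_2 = 0`, `j < d`, and all
coefficients equal to `c`. -/
noncomputable def momentOrbifold (d : ℕ) (c : ℚ) (h0 : 0 < c) (h1 : c ≤ 1) : PlaneOrbifold d where
  ℓ := fun j i => (j : ℂ) ^ (i : ℕ)
  general := moment_general d
  c := fun _ => c
  c_pos := fun _ => h0
  c_le_one := fun _ => h1

theorem exists_pair_general (d : ℕ) (hd : 7 ≤ d) :
    ∃ P : PlaneOrbifold d, (∀ j, P.c j = (2 : ℚ) / (d - 2)) ∧ P.degKD < 0 := by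
  have hd0 : (7 : ℚ) ≤ d := by exact_mod_cast hd
  have hd1 : (0 : ℚ) < d - 2 := by linarith
  refine ⟨momentOrbifold d (2 / (d - 2)) (by positivity) (by rw [div_le_one hd1]; linarith),
    fun _ => rfl, ?_⟩
  have h1 : (momentOrbifold d (2 / (d - 2)) (by positivity)
      (by rw [div_le_one hd1]; linarith)).degKD = -3 + d * (2 / (d - 2)) := by
    simp [PlaneOrbifold.degKD, momentOrbifold]
  rw [h1]
  have h2 : (d : ℚ) * (2 / (d - 2)) = 2 * d / (d - 2) := by ring
  rw [h2]
  have h3 : 2 * (d : ℚ) / (d - 2) < 3 := by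
    rw [div_lt_iff₀ hd1]
    linarith
  linarith

end Pool.Agent.H436R3
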