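import Mathlib
import Pool.Agent.H436R3.PlaneOrb

/-!
# The orbifold divisor `D_C` of a rational curve in a plane orbifold pair; weak uniruledness
-/

set_option autoImplicit false

namespace Pool.Agent.H436R3

open Polynomial

namespace PlaneOrbifold

variable {d : ℕ}

/-- The set `γ⁻¹ (Supp D)`. -/
def preimage (P : PlaneOrbifold d) (γ : RatCurve) : Set (Option ℂ) :=
  {a | ∃ j, ∑ i, P.ℓ j i * γ.val a i = 0}

/-- The smallest multiplicity `m ≥ 1` with `t_{a,j} * m ≥ m_j` for all `j` such that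
`γ a ∈ L j`, that is the maximum of `1` and of the numbers `m_j / t_{a,j}`. -/
noncomputable def multMin (P : PlaneOrbifold d) (γ : RatCurve) (a : Option ℂ) : ENNReal :=
  max 1 (⨆ j, ⨆ (_ : ∑ i, P.ℓ j i * γ.val a i = 0), mult (P.c j) / (γ.ord (P.ℓ j) a : ENNReal))

/-- The minimum of the numbers `t_{a,j} * m_j` over all `j` such that `γ a ∈ L j`. -/
noncomputable def multLit (P : PlaneOrbifold d) (γ : RatCurve) (a : Option ℂ) : ENNReal :=
  ⨅ j, ⨅ (_ : ∑ i, P.ℓ j i * γ.val a i = 0), (γ.ord (P.ℓ j) a : ENNReal) * mult (P.c j)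

/-- The degree of `K_{P^1} + D_C`, `D_C = ∑ (1 - 1 / m a) • a`, summed over the finite set
`γ⁻¹ (Supp D)`. -/
noncomputable def degC (P : PlaneOrbifold d) (γ : RatCurve) (m : Option ℂ → ENNReal) : ℝ :=
  -2 + ∑ᶠ a ∈ P.preimage γ, (1 - ((m a)⁻¹).toReal)

/-- `(P^2, D)` is uniruled, where orbifold rational curves are defined with the orbifold divisor
`D_C` given by the multiplicities `m γ a`. -/
def IsUniruledWith (P : PlaneOrbifold d) (m : RatCurve → Option ℂ → ENNReal) : Prop :=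
  VeryGeneral fun x => ∃ γ : RatCurve, 1 ≤ γ.e ∧ (∀ j, γ.pull (P.ℓ j) ≠ 0) ∧
    P.degC γ (m γ) < 0 ∧ γ.Through x

/-- `(P^2, D)` is weakly uniruled: through a general point passes a rational curve
(a non-constant `γ`) of negative degree with respect to `K_{P^2} + D`. -/
def IsWeaklyUniruled (P : PlaneOrbifold d) : Prop :=
  VeryGeneral fun x => ∃ γ : RatCurve, 1 ≤ γ.e ∧ (γ.e : ℚ) * P.degKD < 0 ∧ γ.Through x

end PlaneOrbifold

end Pool.Agent.H436R3
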