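import Mathlib
import Pool.Agent.H436R3.MainB
import Pool.Agent.H436R3.PlaneOrbW

/-!
# Plane orbifold pairs which are weakly uniruled and not uniruled
-/

set_option autoImplicit false

namespace Pool.Agent.H436R3

open Polynomial

theorem RatCurve.ord_ne_zero (γ : RatCurve) {ℓ : Fin 3 → ℂ} (h : γ.pull ℓ ≠ 0) {a : Option ℂ}
    (ha : ∑ i, ℓ i * γ.val a i = 0) : γ.ord ℓ a ≠ 0 := by
  rcases a with _ | a
  · rw [γ.sum_val_none] at ha
    change γ.e - (γ.pull ℓ).natDegree ≠ 0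
    have h1 := γ.natDegree_pull_le ℓ
    rcases h1.lt_or_eq with h2 | h2
    · omega
    · exfalso
      apply leadingCoeff_ne_zero.2 h
      rw [leadingCoeff, h2, ha]
  · rw [γ.sum_val_some] at ha
    exact ((rootMultiplicity_pos h).2 ha).ne'

open Classical in
theorem preimage_eq {d : ℕ} (P : PlaneOrbifold d) (γ : RatCurve)
    (h : ∀ j, γ.pull (P.ℓ j) ≠ 0) :
    P.preimage γ = ((pts P.ℓ γ).filter fun a => ∃ j, γ.ord (P.ℓ j) a ≠ 0 : Finset (Option ℂ)) := by
  ext a
  simp only [PlaneOrbifold.preimage, Set.mem_ofPred_eq, Finset.coe_filter]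
  constructor
  · rintro ⟨j, hj⟩
    refine ⟨?_, j, γ.ord_ne_zero (h j) hj⟩
    rw [pts]
    rcases a with _ | a
    · exact Finset.none_mem_insertNone
    · rw [Finset.some_mem_insertNone, Finset.mem_biUnion]
      refine ⟨j, Finset.mem_univ _, ?_⟩
      rw [Multiset.mem_toFinset, mem_roots (h j)]
      rwa [γ.sum_val_some] at hj
  · rintro ⟨_, j, hj⟩
    exact ⟨j, γ.sum_val_eq_zero _ _ hj⟩

theorem mult_mono {c r : ℚ} (h : c ≤ r) : mult c ≤ mult r := by
  rw [mult, mult, ENNReal.inv_le_inv]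
  apply ENNReal.ofReal_le_ofReal
  have : (c : ℝ) ≤ r := by exact_mod_cast h
  linarith

theorem coeff_ge {c : ℚ} (hc : c ≤ 1) {m : ENNReal} (h : mult c ≤ m) :
    (c : ℝ) ≤ 1 - (m⁻¹).toReal := by
  have h1 : m⁻¹ ≤ ENNReal.ofReal (1 - (c : ℝ)) := by
    rw [mult] at h
    exact ENNReal.inv_le_iff_inv_le.1 h
  have h2 : (m⁻¹).toReal ≤ 1 - (c : ℝ) := by
    have h3 : (0 : ℝ) ≤ 1 - c := by
      have : (c : ℝ) ≤ 1 := by exact_mod_cast hc
      linarith
    have := ENNReal.toReal_mono ENNReal.ofReal_ne_top h1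
    rwa [ENNReal.toReal_ofReal h3] at this
  linarith

theorem count_arith' {d e n : ℕ} (hd : 3 ≤ d) (he : 1 ≤ e) (h : d * e + 2 ≤ 3 * e + n) :
    d - 1 ≤ n := by
  obtain ⟨k, rfl⟩ := Nat.exists_eq_add_of_le hd
  obtain ⟨f, rfl⟩ := Nat.exists_eq_add_of_le he
  have h1 : (3 + k) * (1 + f) = 3 * (1 + f) + k + k * f := by ring
  have h2 : 0 ≤ k * f := Nat.zero_le _
  omega

/-- Both formulas for `D_C` give `K_{P^1} + D_C` of degree `≥ 0` for all rational curves through a
very general point. -/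
theorem veryGeneral_degC {d : ℕ} (hd : 6 ≤ d) (P : PlaneOrbifold d)
    (hc : ∀ j, (2 : ℚ) / (d - 2) ≤ P.c j) : VeryGeneral fun x => ∀ γ : RatCurve, 1 ≤ γ.e →
      (∀ j, γ.pull (P.ℓ j) ≠ 0) → γ.Through x →
      0 ≤ P.degC γ (P.multMin γ) ∧ 0 ≤ P.degC γ (P.multLit γ) := by
  classical
  obtain ⟨Z, hZ, h1⟩ := veryGeneral_estimate (by omega : 3 ≤ d) P.general
  refine ⟨Z, hZ, fun x hx hn γ he hγ hγx => ?_⟩
  obtain ⟨h2, h3⟩ := h1 x hx hn γ he hγ hγx
  have h2 := count_arith' (by omega) he h2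
  have h3 := count_arith hd he h3
  have hd0 : (0 : ℚ) < d - 2 := by
    have : (6 : ℚ) ≤ d := by exact_mod_cast hd
    linarith
  have hdr : (0 : ℝ) < d - 2 := by exact_mod_cast hd0
  have hc1 : (2 : ℚ) / (d - 2) ≤ 1 := by
    have : (6 : ℚ) ≤ d := by exact_mod_cast hd
    rw [div_le_one hd0]
    linarith
  have hcr : (((2 : ℚ) / (d - 2) : ℚ) : ℝ) = 2 / (d - 2) := by push_cast; ring
  constructor
  · rw [PlaneOrbifold.degC, preimage_eq P γ hγ, finsum_mem_coe_finset]
    have h4 : ∀ a, 0 ≤ 1 - ((P.multMin γ a)⁻¹).toReal := by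
      intro a
      have h5 : mult 0 ≤ P.multMin γ a := by
        have : mult 0 = 1 := by simp [mult]
        rw [this]
        exact le_max_left _ _
      have := coeff_ge zero_le_one h5
      simpa using this
    have h5 : ∀ a ∈ (pts P.ℓ γ).filter fun a => ∃ j, γ.ord (P.ℓ j) a = 1,
        (2 : ℝ) / (d - 2) ≤ 1 - ((P.multMin γ a)⁻¹).toReal := by
      intro a ha
      obtain ⟨j, hj⟩ := (Finset.mem_filter.1 ha).2
      rw [← hcr]
      apply coeff_ge hc1
      refine (mult_mono (hc j)).trans ?_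
      refine le_trans ?_ (le_max_right _ _)
      refine le_iSup_of_le j (le_iSup_of_le (γ.sum_val_eq_zero _ _ (by omega)) ?_)
      rw [hj]
      simp
    have h6 : (2 : ℝ) ≤ ∑ a ∈ (pts P.ℓ γ).filter fun a => ∃ j, γ.ord (P.ℓ j) a = 1,
        (1 - ((P.multMin γ a)⁻¹).toReal) := by
      calc (2 : ℝ) = (d - 2) * (2 / (d - 2)) := by field_simp
        _ ≤ (((pts P.ℓ γ).filter fun a => ∃ j, γ.ord (P.ℓ j) a = 1).card : ℝ) *
            (2 / (d - 2)) := by
            apply mul_le_mul_of_nonneg_right _ (by positivity)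
            have h6 : ((d - 2 : ℕ) : ℝ) ≤
              ((pts P.ℓ γ).filter fun a => ∃ j, γ.ord (P.ℓ j) a = 1).card := by
                exact_mod_cast h3
            rwa [Nat.cast_sub (by omega)] at h6
        _ = ∑ _a ∈ (pts P.ℓ γ).filter fun a => ∃ j, γ.ord (P.ℓ j) a = 1,
            (2 / (d - 2) : ℝ) := by simp
        _ ≤ _ := Finset.sum_le_sum h5
    have h7 : ∑ a ∈ (pts P.ℓ γ).filter fun a => ∃ j, γ.ord (P.ℓ j) a = 1,
        (1 - ((P.multMin γ a)⁻¹).toReal) ≤
        ∑ a ∈ (pts P.ℓ γ).filter fun a => ∃ j, γ.ord (P.ℓ j) a ≠ 0,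
        (1 - ((P.multMin γ a)⁻¹).toReal) := by
      apply Finset.sum_le_sum_of_subset_of_nonneg
      · intro a ha
        rw [Finset.mem_filter] at ha ⊢
        obtain ⟨h8, j, hj⟩ := ha
        exact ⟨h8, j, by omega⟩
      · intro a _ _
        exact h4 a
    linarith
  · rw [PlaneOrbifold.degC, preimage_eq P γ hγ, finsum_mem_coe_finset]
    have h5 : ∀ a ∈ (pts P.ℓ γ).filter fun a => ∃ j, γ.ord (P.ℓ j) a ≠ 0,
        (2 : ℝ) / (d - 2) ≤ 1 - ((P.multLit γ a)⁻¹).toReal := by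
      intro a _
      rw [← hcr]
      apply coeff_ge hc1
      refine le_iInf fun j => le_iInf fun hj => ?_
      refine (mult_mono (hc j)).trans ?_
      have h6 : (1 : ENNReal) ≤ (γ.ord (P.ℓ j) a : ENNReal) := by
        have := Nat.one_le_iff_ne_zero.2 (γ.ord_ne_zero (hγ j) hj)
        exact_mod_cast this
      calc mult (P.c j) = 1 * mult (P.c j) := (one_mul _).symm
        _ ≤ _ := mul_le_mul_left h6 _
    have h6 : (2 : ℝ) ≤ ∑ a ∈ (pts P.ℓ γ).filter fun a => ∃ j, γ.ord (P.ℓ j) a ≠ 0,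
        (1 - ((P.multLit γ a)⁻¹).toReal) := by
      calc (2 : ℝ) = (d - 2) * (2 / (d - 2)) := by field_simp
        _ ≤ (((pts P.ℓ γ).filter fun a => ∃ j, γ.ord (P.ℓ j) a ≠ 0).card : ℝ) *
            (2 / (d - 2)) := by
            apply mul_le_mul_of_nonneg_right _ (by positivity)
            have h6 : ((d - 1 : ℕ) : ℝ) ≤
              ((pts P.ℓ γ).filter fun a => ∃ j, γ.ord (P.ℓ j) a ≠ 0).card := by
                exact_mod_cast h2
            rw [Nat.cast_sub (by omega)] at h6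
            push_cast at h6
            linarith
        _ = ∑ _a ∈ (pts P.ℓ γ).filter fun a => ∃ j, γ.ord (P.ℓ j) a ≠ 0,
            (2 / (d - 2) : ℝ) := by simp
        _ ≤ _ := Finset.sum_le_sum h5
    linarith

theorem not_isUniruledWith {d : ℕ} (hd : 6 ≤ d) (P : PlaneOrbifold d)
    (hc : ∀ j, (2 : ℚ) / (d - 2) ≤ P.c j) :
    ¬ P.IsUniruledWith P.multMin ∧ ¬ P.IsUniruledWith P.multLit := by
  constructor
  · intro h
    obtain ⟨x, _, ⟨γ, h1, h2, h3, h4⟩, h5⟩ := h.exists_common (veryGeneral_degC hd P hc)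
    exact absurd (h5 γ h1 h2 h4).1 (not_le.2 h3)
  · intro h
    obtain ⟨x, _, ⟨γ, h1, h2, h3, h4⟩, h5⟩ := h.exists_common (veryGeneral_degC hd P hc)
    exact absurd (h5 γ h1 h2 h4).2 (not_le.2 h3)

/-- There is a line through every point. -/
theorem exists_line (x : Fin 3 → ℂ) (hx : x ≠ 0) : ∃ γ : RatCurve, γ.e = 1 ∧ γ.Through x := by
  obtain ⟨y, hy⟩ : ∃ y : Fin 3 → ℂ, LinearIndependent ℂ ![x, y] := by
    obtain ⟨y, hy⟩ : ∃ y : Fin 3 → ℂ, y ∉ Submodule.span ℂ {x} := by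
      by_contra hcon
      push Not at hcon
      have h1 : Submodule.span ℂ {x} = ⊤ := Submodule.eq_top_iff'.2 hcon
      have h2 := finrank_span_singleton (K := ℂ) hx
      rw [h1, finrank_top] at h2
      simp at h2
    refine ⟨y, (LinearIndependent.pair_iff' hx).2 fun a ha => hy ?_⟩
    exact Submodule.mem_span_singleton.2 ⟨a, ha⟩
  rw [LinearIndependent.pair_iff] at hy
  refine ⟨⟨1, fun i => C (x i) + C (y i) * X, fun i => ?_, ?_, ?_⟩, rfl, some 0, 1, one_ne_zero, ?_⟩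
  · rw [add_comm]
    exact natDegree_linear_le
  · by_contra hcon
    push Not at hcon
    have h1 := hy 0 1 (by
      funext i
      have := hcon i
      simp only [coeff_add, coeff_C_mul, coeff_X_one, mul_one] at this
      rw [coeff_C_of_ne_zero one_ne_zero, zero_add] at this
      simp [this])
    exact one_ne_zero h1.2
  · intro a
    by_contra hcon
    push Not at hcon
    have h1 := hy 1 a (by
      funext i
      have := hcon i
      simp only [eval_add, eval_C, eval_mul, eval_X] at this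
      simp only [one_smul, Pi.add_apply, Pi.smul_apply, smul_eq_mul, Pi.zero_apply]
      linear_combination this)
    exact one_ne_zero h1.1
  · funext i
    simp [RatCurve.val]

theorem isWeaklyUniruled {d : ℕ} (P : PlaneOrbifold d) (h : P.degKD < 0) :
    P.IsWeaklyUniruled := by
  refine ⟨fun _ => 1, fun _ => ⟨one_ne_zero, 0, MvPolynomial.isHomogeneous_one _ _⟩,
    fun x hx _ => ?_⟩
  obtain ⟨γ, h1, h2⟩ := exists_line x hx
  refine ⟨γ, by omega, ?_, h2⟩
  rw [h1, Nat.cast_one, one_mul]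
  exact h

end Pool.Agent.H436R3
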